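import Pool.Agent.Lib.MP_e43eb1_co.Main

set_option autoImplicit false

namespace Pool.Agent.Results.MP_e43eb1_co.Boxes

/-- For positive `r, t, k` there are positive `d, n` such that every `k`-colouring of `ℤ^n` has
disjointly supported `u_1, …, u_t` of `1`-norm `d` and a point `x` such that all the points
`x + Σ λ_i u_i` with `|λ_i| ≤ r` for every `i` (in particular those with `Σ |λ_i| ≤ r`) have one
colour. -/
theorem result (r t k : ℕ) (_hr : 0 < r) (ht : 0 < t) (hk : 0 < k) :
    ∃ d n : ℕ, 0 < d ∧ 0 < n ∧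
      ∀ c : (Fin n → ℤ) → Fin k,
        ∃ u : Fin t → Fin n → ℤ,
          (Pairwise fun i i' => Disjoint (Function.support (u i)) (Function.support (u i'))) ∧
          (∀ i, ∑ j, |u i j| = (d : ℤ)) ∧
          ∃ (x : Fin n → ℤ) (colour : Fin k), ∀ l : Fin t → ℤ, (∀ i, |l i| ≤ (r : ℤ)) →
            c (x + ∑ i, l i • u i) = colour := by
  obtain ⟨d, n, hd, H⟩ := Pool.Agent.Lib.MP_e43eb1_co.main_box r t k
  refine ⟨d, n, hd, ?_, fun c => ?_⟩
  · rcases Nat.eq_zero_or_pos n with rfl | hn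
    · obtain ⟨u, -, h2, -⟩ := H (fun _ => ⟨0, hk⟩)
      have := h2 ⟨0, ht⟩
      simp at this
      omega
    · exact hn
  · obtain ⟨u, h1, h2, x, hx⟩ := H c
    refine ⟨u, fun i i' hii' => ?_, h2, x, c x, hx⟩
    refine Set.disjoint_left.2 fun j hj hj' => ?_
    rcases h1 i i' hii' j with h | h
    · exact hj h
    · exact hj' h

end Pool.Agent.Results.MP_e43eb1_co.Boxes
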