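import Pool.Agent.Lib.MP_e43eb1_co.LpSub

set_option autoImplicit false

namespace Pool.Agent.Results.MP_e43eb1_co.LpLarge

/-- Let `p > 1`, `m > 0` and `c` satisfy `Σ_{j odd, j ≤ m} C(m,j) |1 - j c|^p < 1`, and let `T` be
a set of at most `m` reals. Then the grid `T^t` is Ramsey in `ℓ_p`: for every `k` there is `n` such
that every `k`-colouring of `ℝ^n` has disjointly supported `u_1, …, u_t`, for which
`λ ↦ Σ λ_i u_i` is an isometric embedding of `ℓ_p^t` in `ℓ_p^n`, and a point `x` such that all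
the points `x + Σ f_i u_i`, `f ∈ T^t`, have one colour. -/
theorem result (p c : ℝ) (hp : 1 < p) (m : ℕ) (hm : 0 < m)
    (hc : (∑ j ∈ Finset.range (m + 1),
      if Odd j then (m.choose j : ℝ) * |1 - (j : ℝ) * c| ^ p else 0) < 1)
    (T : Finset ℝ) (hT : T.card ≤ m) (t k : ℕ) :
    ∃ n : ℕ, ∀ col : (Fin n → ℝ) → Fin k,
      ∃ u : Fin t → Fin n → ℝ,
        (Pairwise fun i i' => Disjoint (Function.support (u i)) (Function.support (u i'))) ∧
        (∀ l : Fin t → ℝ, ∑ j, |(∑ i, l i • u i) j| ^ p = ∑ i, |l i| ^ p) ∧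
        ∃ (x : Fin n → ℝ) (colour : Fin k), ∀ f : Fin t → ℝ, (∀ i, f i ∈ T) →
          col (x + ∑ i, f i • u i) = colour :=
  Pool.Agent.Lib.MP_e43eb1_co.Lp.main_cube (by linarith) hm hc T hT t k

/-- The hypothesis holds for `m = 3`, `c = 1/2` and every `p > 2`. -/
theorem triple (p : ℝ) (hp : 2 < p) :
    (∑ j ∈ Finset.range (3 + 1),
      if Odd j then ((3 : ℕ).choose j : ℝ) * |1 - (j : ℝ) * (1 / 2)| ^ p else 0) < 1 := by
  have h : (1 / 2 : ℝ) ^ p < (1 / 2 : ℝ) ^ (2 : ℝ) :=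
    Real.rpow_lt_rpow_of_exponent_gt (by norm_num) (by norm_num) hp
  have h2 : (1 / 2 : ℝ) ^ (2 : ℝ) = 1 / 4 := by
    rw [Real.rpow_two]
    norm_num
  have o0 : ¬ Odd 0 := by decide
  have o1 : Odd 1 := by decide
  have o2 : ¬ Odd 2 := by decide
  have o3 : Odd 3 := by decide
  have e1 : |1 - ((1 : ℕ) : ℝ) * (1 / 2)| = 1 / 2 := by norm_num [abs_of_pos]
  have e3 : |1 - ((3 : ℕ) : ℝ) * (1 / 2)| = 1 / 2 := by
    rw [abs_of_neg] <;> norm_num
  simp only [Finset.sum_range_succ, Finset.range_zero, Finset.sum_empty, if_neg o0, if_pos o1,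
    if_neg o2, if_pos o3, e1, e3]
  norm_num
  norm_num at h h2
  linarith

/-- For every `m` the hypothesis holds, with `c = 2/(m+1)`, for all large `p`. -/
theorem large (m : ℕ) : ∃ p₀ : ℝ, ∀ p : ℝ, p₀ ≤ p →
    (∑ j ∈ Finset.range (m + 1),
      if Odd j then (m.choose j : ℝ) * |1 - (j : ℝ) * (2 / (m + 1))| ^ p else 0) < 1 := by
  have h : Filter.Tendsto (fun p : ℝ => ∑ j ∈ Finset.range (m + 1),
      if Odd j then (m.choose j : ℝ) * |1 - (j : ℝ) * (2 / (m + 1))| ^ p else 0) Filter.atTop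
      (nhds (∑ _j ∈ Finset.range (m + 1), (0 : ℝ))) := by
    refine tendsto_finsetSum _ fun j hj => ?_
    by_cases ho : Odd j
    · simp only [if_pos ho]
      have hj1 : (1 : ℝ) ≤ j := by exact_mod_cast ho.pos
      have hjm : (j : ℝ) < m + 1 := by exact_mod_cast Finset.mem_range.1 hj
      have hm : (0 : ℝ) < m + 1 := by positivity
      have h1 : 0 < (j : ℝ) * (2 / (m + 1)) := by positivity
      have h2 : (j : ℝ) * (2 / (m + 1)) < 2 := by
        rw [← mul_div_assoc, div_lt_iff₀ hm]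
        linarith
      have h3 : |1 - (j : ℝ) * (2 / (m + 1))| < 1 := abs_lt.2 ⟨by linarith, by linarith⟩
      have := (tendsto_rpow_atTop_of_base_lt_one _
        (lt_of_lt_of_le (by norm_num) (abs_nonneg _)) h3).const_mul (m.choose j : ℝ)
      simpa using this
    · simp only [if_neg ho]
      exact tendsto_const_nhds
  rw [Finset.sum_const_zero] at h
  exact Filter.eventually_atTop.1 (h.eventually (gt_mem_nhds one_pos))

end Pool.Agent.Results.MP_e43eb1_co.LpLarge
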