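import Pool.Agent.Lib.MP_e43eb1_co.LpMain

set_option autoImplicit false

namespace Pool.Agent.Results.MP_e43eb1_co.LpRamsey

/-- For `1 < p < 2` every finite subset `F` of `ℓ_p^t` is Ramsey in `ℓ_p`: for every `k` there is
`n` such that every `k`-colouring of `ℝ^n` has disjointly supported `u_1, …, u_t`, for which
`λ ↦ Σ λ_i u_i` is an isometric embedding of `ℓ_p^t` in `ℓ_p^n`, and a point `x` such that all
the points `x + Σ f_i u_i`, `f ∈ F`, have one colour. -/
theorem result (p : ℝ) (hp1 : 1 < p) (hp2 : p < 2) (t k : ℕ) (F : Finset (Fin t → ℝ)) :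
    ∃ n : ℕ, ∀ c : (Fin n → ℝ) → Fin k,
      ∃ u : Fin t → Fin n → ℝ,
        (Pairwise fun i i' => Disjoint (Function.support (u i)) (Function.support (u i'))) ∧
        (∀ l : Fin t → ℝ, ∑ j, |(∑ i, l i • u i) j| ^ p = ∑ i, |l i| ^ p) ∧
        ∃ (x : Fin n → ℝ) (colour : Fin k), ∀ f ∈ F, c (x + ∑ i, f i • u i) = colour :=
  Pool.Agent.Lib.MP_e43eb1_co.Lp.main_set (by linarith) t k F
    (Pool.Agent.Lib.MP_e43eb1_co.Lp.gad_lt_two (by linarith) hp2)

end Pool.Agent.Results.MP_e43eb1_co.LpRamsey
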